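import Pool.Agent.W93.TD.Stm

/-! Boolean functions of degree at most `d` are polynomial functions of weight degree at most
`d`. -/

set_option autoImplicit false

open Finset

namespace Pool.Agent.W561.TD

open W93.TD

section

variable {F : Type} [Field F]

/-- Polynomial functions of weight degree at most `d`. -/
def Q (k d : ℕ) (f : F → F → F) : Prop :=
  ∃ c : ℕ → ℕ → F, (∀ i j, d < wt i + wt j → c i j = 0) ∧ ∀ x y, f x y = P k c x y

theorem Q.mono {k d d' : ℕ} (h : d ≤ d') {f : F → F → F} (hf : Q k d f) : Q k d' f := by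
  obtain ⟨c, hc, hf⟩ := hf
  exact ⟨c, fun i j hij => hc i j (lt_of_le_of_lt h hij), hf⟩

theorem Q.zero (k d : ℕ) : Q k d (fun _ _ => (0 : F)) :=
  ⟨fun _ _ => 0, fun _ _ _ => rfl, fun x y => by simp [P]⟩

theorem Q.add {k d : ℕ} {f g : F → F → F} (hf : Q k d f) (hg : Q k d g) :
    Q k d (fun x y => f x y + g x y) := by
  obtain ⟨c, hc, hf⟩ := hf
  obtain ⟨c', hc', hg⟩ := hg
  refine ⟨fun i j => c i j + c' i j, fun i j hij => by simp only [hc i j hij, hc' i j hij, add_zero], ?_⟩
  intro x y
  simp only [hf, hg]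
  unfold P
  rw [← Finset.sum_add_distrib]
  refine Finset.sum_congr rfl fun i _ => ?_
  rw [← Finset.sum_add_distrib]
  refine Finset.sum_congr rfl fun j _ => ?_
  ring

theorem Q.smul {k d : ℕ} (a : F) {f : F → F → F} (hf : Q k d f) :
    Q k d (fun x y => a * f x y) := by
  obtain ⟨c, hc, hf⟩ := hf
  refine ⟨fun i j => a * c i j, fun i j hij => by simp only [hc i j hij, mul_zero], ?_⟩
  intro x y
  simp only [hf]
  unfold P
  rw [Finset.mul_sum]
  refine Finset.sum_congr rfl fun i _ => ?_
  rw [Finset.mul_sum]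
  refine Finset.sum_congr rfl fun j _ => ?_
  ring

theorem Q.one (k : ℕ) : Q k 0 (fun _ _ => (1 : F)) := by
  have h0 : wt 0 = 0 := by simp [wt]
  refine ⟨fun i j => if i = 0 ∧ j = 0 then 1 else 0, ?_, ?_⟩
  · intro i j hij
    simp only
    rw [if_neg]
    rintro ⟨rfl, rfl⟩
    rw [h0] at hij
    exact absurd hij (lt_irrefl _)
  · intro x y
    unfold P
    have hk : 0 ∈ range (2 ^ k) := Finset.mem_range.2 (by positivity)
    rw [Finset.sum_eq_single_of_mem 0 hk, Finset.sum_eq_single_of_mem 0 hk]
    · simp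
    · intro j _ hj
      simp [hj]
    · intro i _ hi
      refine Finset.sum_eq_zero fun j _ => ?_
      simp [hi]

theorem Q.sum {k d : ℕ} {ι : Type} (s : Finset ι) {f : ι → F → F → F}
    (hf : ∀ i ∈ s, Q k d (f i)) : Q k d (fun x y => ∑ i ∈ s, f i x y) := by
  classical
  induction s using Finset.induction_on with
  | empty => simpa using Q.zero k d
  | insert a s ha ih =>
    have h1 := hf a (Finset.mem_insert_self a s)
    have h2 := ih fun i hi => hf i (Finset.mem_insert_of_mem hi)
    have h3 := h1.add h2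
    simp only [Finset.sum_insert ha]
    exact h3

end

theorem t_span : T_SPAN := by
  intro hlin hmul k F _ _ _ hF n d l cc hcc
  classical
  have hprod : ∀ S : Finset (Fin n),
      Q k S.card (fun x y : F => algebraMap (ZMod 2) F (∏ i ∈ S, l i (x, y))) := by
    intro S
    induction S using Finset.induction_on with
    | empty => simpa using Q.one (F := F) k
    | insert a S ha ih =>
      obtain ⟨c, hc, hf⟩ := ih
      obtain ⟨b, b', hb⟩ := hlin k F hF (l a)
      have h1 : (fun x y : F => algebraMap (ZMod 2) F (∏ i ∈ insert a S, l i (x, y))) =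
          fun x y => ∑ s ∈ range k, (b s * (x ^ (2 ^ s) * P k c x y) +
            b' s * (y ^ (2 ^ s) * P k c x y)) := by
        funext x y
        have hfx : algebraMap (ZMod 2) F (∏ i ∈ S, l i (x, y)) = P k c x y := hf x y
        rw [Finset.prod_insert ha, map_mul, hb, hfx, Finset.sum_mul]
        refine Finset.sum_congr rfl fun s _ => ?_
        ring
      rw [h1, Finset.card_insert_of_notMem ha]
      refine Q.sum (range k) fun s hs => ?_
      obtain ⟨⟨c1, hc1, h2⟩, ⟨c2, hc2, h3⟩⟩ := hmul k F hF S.card s c (Finset.mem_range.1 hs) hc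
      exact (Q.smul (b s) ⟨c1, hc1, h2⟩).add (Q.smul (b' s) ⟨c2, hc2, h3⟩)
  have hsum : Q k d (fun x y : F => ∑ S : Finset (Fin n),
      algebraMap (ZMod 2) F (cc S) * algebraMap (ZMod 2) F (∏ i ∈ S, l i (x, y))) := by
    refine Q.sum Finset.univ fun S _ => ?_
    by_cases h : cc S = 0
    · simp only [h, map_zero, zero_mul]
      exact Q.zero k d
    · exact (Q.smul (algebraMap (ZMod 2) F (cc S)) (hprod S)).mono (hcc S h)
  obtain ⟨c, hc, hf⟩ := hsum
  refine ⟨c, hc, fun x y => ?_⟩
  have hfx : (∑ S : Finset (Fin n), algebraMap (ZMod 2) F (cc S) *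
      algebraMap (ZMod 2) F (∏ i ∈ S, l i (x, y))) = P k c x y := hf x y
  rw [← hfx, map_sum]
  exact Finset.sum_congr rfl fun S _ => map_mul _ _ _

end Pool.Agent.W561.TD
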